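import Pool.Agent.Lib.MP_26616c_an.Path

/-!
Crossing lemma: a discrete orbit cannot rise and come back by more than `38 X`.
-/

set_option autoImplicit false

open MeasureTheory Filter Topology Complex Set ComplexConjugate

namespace Pool.Agent.MP26616c

theorem crossing {D : ℂ → ℂ} (hD : DifferentiableOn ℂ D {z | 0 < z.re})
    (hre : ∀ z : ℂ, 0 < z.re → 0 ≤ (D z).re) (hne : ∀ z : ℂ, 0 < z.re → D z ≠ 0)
    {Z : ℕ → ℂ} {n m : ℕ} (hmn : m ≤ n) (hZ : ∀ k < n, Z (k + 1) = Z k + D (Z k))
    (hZ0 : 1 ≤ (Z 0).re)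
    (hstep : ∀ k < n, ‖D (Z k)‖ ≤ 1 / 4) {X : ℝ} (hX : (Z n).re ≤ X) {L : ℝ}
    (h0 : (Z 0).im ≤ L) (hn : (Z n).im ≤ L) : (Z m).im ≤ L + 38 * X := by
  by_contra hcon
  push Not at hcon
  have hre1 : ∀ k ≤ n, 1 ≤ (Z k).re := by
    intro k
    induction k with
    | zero => intro _; exact hZ0
    | succ k ih =>
      intro hk
      have h1 := ih (by omega)
      rw [hZ k (by omega), add_re]
      have := hre (Z k) (by linarith)
      linarith
  have hmono : ∀ i j, i ≤ j → j ≤ n → (Z i).re ≤ (Z j).re := by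
    intro i j hij
    induction j, hij using Nat.le_induction with
    | base => intro _; exact le_rfl
    | succ j hj ih =>
      intro hjn
      refine (ih (by omega)).trans ?_
      rw [hZ j (by omega), add_re]
      have := hre (Z j) (by linarith [hre1 j (by omega)])
      linarith
  have hXpos : 1 ≤ X := (hre1 n le_rfl).trans hX
  set Y := (Z m).im with hY
  have hAB : L + 3 * X ≤ Y - 3 * X := by linarith
  -- going up
  have up := upcrossing hD hre hne (Z := Z) (n := m) (fun k hk => hZ k (by omega)) hZ0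
    (fun k hk => hstep k (by omega)) (X := X) ((hmono m n hmn le_rfl).trans hX)
    (A := L + 3 * X) (B := Y - 3 * X) (by linarith) (by linarith) hAB
  -- going down: reflect
  set D' : ℂ → ℂ := fun z => conj (D (conj z)) with hD'
  have hmem : ∀ z : ℂ, 0 < z.re → 0 < (conj z).re := fun z hz => by simpa using hz
  have hopen : IsOpen {z : ℂ | 0 < z.re} := isOpen_lt continuous_const Complex.continuous_re
  have hD'd : DifferentiableOn ℂ D' {z | 0 < z.re} := by
    intro z hz
    have h1 : DifferentiableAt ℂ D (conj z) := hD.differentiableAt (hopen.mem_nhds (hmem z hz))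
    exact (differentiableAt_conj_conj_iff.2 h1).differentiableWithinAt
  have hre' : ∀ z : ℂ, 0 < z.re → 0 ≤ (D' z).re := by
    intro z hz; simp only [hD', conj_re]; exact hre _ (hmem z hz)
  have hne' : ∀ z : ℂ, 0 < z.re → D' z ≠ 0 := by
    intro z hz h
    have h2 : D (conj z) = 0 := by
      have := congrArg conj h
      simpa [hD'] using this
    exact hne _ (hmem z hz) h2
  have down := upcrossing hD'd hre' hne' (Z := fun k => conj (Z (m + k))) (n := n - m)
    (fun k hk => by
      simp only [hD', Complex.conj_conj]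
      rw [← map_add, ← hZ (m + k) (by omega)]; rfl)
    (by simp only [add_zero, conj_re]; exact hre1 m hmn)
    (fun k hk => by
      simp only [hD', Complex.conj_conj, RCLike.norm_conj]
      exact hstep (m + k) (by omega))
    (X := X) (by
      simp only [conj_re]
      have : m + (n - m) = n := by omega
      rw [this]; exact hX)
    (A := -(Y - 3 * X)) (B := -(L + 3 * X)) (by
      simp only [add_zero, conj_im]; linarith) (by
      simp only [conj_im]
      have : m + (n - m) = n := by omega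
      rw [this]; linarith) (by linarith)
  -- combine
  have harg : ∀ s : ℝ, Real.pi / 2 - Complex.arg (D' (((1 / 2 : ℝ) : ℂ) + s * I))
      = Real.pi / 2 + Complex.arg (D (((1 / 2 : ℝ) : ℂ) + (-s : ℝ) * I)) := by
    intro s
    have h1 : conj (((1 / 2 : ℝ) : ℂ) + s * I) = ((1 / 2 : ℝ) : ℂ) + (-s : ℝ) * I := by
      simp [Complex.ext_iff]
    simp only [hD', h1]
    rw [Complex.arg_conj]
    split_ifs with h
    · exfalso
      have h2 := Complex.abs_arg_le_pi_div_two_iff.2 (hre (((1 / 2 : ℝ) : ℂ) + (-s : ℝ) * I) (by simp))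
      rw [h, abs_of_pos Real.pi_pos] at h2
      linarith [Real.pi_pos]
    · ring
  simp only [harg] at down
  rw [intervalIntegral.integral_comp_neg (fun s : ℝ => Real.pi / 2 +
    Complex.arg (D (((1 / 2 : ℝ) : ℂ) + (s : ℝ) * I)))] at down
  simp only [neg_neg] at down
  have hcont : Continuous fun s : ℝ => Complex.arg (D (((1 / 2 : ℝ) : ℂ) + (s : ℝ) * I)) := by
    rw [continuous_iff_continuousAt]
    intro s
    have hz : 0 < (((1 / 2 : ℝ) : ℂ) + (s : ℝ) * I).re := by simp
    have h1 : D (((1 / 2 : ℝ) : ℂ) + (s : ℝ) * I) ∈ slitPlane := by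
      rw [Complex.mem_slitPlane_iff]
      rcases eq_or_lt_of_le (hre _ hz) with h | h
      · right
        intro him
        exact hne _ hz (Complex.ext h.symm him)
      · left; exact h
    have h2 : ContinuousAt D (((1 / 2 : ℝ) : ℂ) + (s : ℝ) * I) :=
      (hD.differentiableAt (hopen.mem_nhds hz)).continuousAt
    have h3 : ContinuousAt (fun s : ℝ => ((1 / 2 : ℝ) : ℂ) + (s : ℝ) * I) s := by fun_prop
    have h4 : ContinuousAt (fun s : ℝ => D (((1 / 2 : ℝ) : ℂ) + (s : ℝ) * I)) s :=
      ContinuousAt.comp (f := fun s : ℝ => ((1 / 2 : ℝ) : ℂ) + (s : ℝ) * I) h2 h3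
    exact ContinuousAt.comp (f := fun s : ℝ => D (((1 / 2 : ℝ) : ℂ) + (s : ℝ) * I))
      (Complex.continuousAt_arg h1) h4
  have hsum : (∫ s in (L + 3 * X)..(Y - 3 * X), (Real.pi / 2 -
      Complex.arg (D (((1 / 2 : ℝ) : ℂ) + (s : ℝ) * I)))) +
      (∫ s in (L + 3 * X)..(Y - 3 * X), (Real.pi / 2 +
      Complex.arg (D (((1 / 2 : ℝ) : ℂ) + (s : ℝ) * I)))) = Real.pi * (Y - L - 6 * X) := by
    rw [← intervalIntegral.integral_add]
    · have : ∀ s : ℝ, (Real.pi / 2 - Complex.arg (D (((1 / 2 : ℝ) : ℂ) + (s : ℝ) * I))) +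
          (Real.pi / 2 + Complex.arg (D (((1 / 2 : ℝ) : ℂ) + (s : ℝ) * I))) = Real.pi := by
        intro s; ring
      simp only [this]
      rw [intervalIntegral.integral_const, smul_eq_mul]; ring
    · exact (continuous_const.sub hcont).intervalIntegrable _ _
    · exact (continuous_const.add hcont).intervalIntegrable _ _
  have hpi := Real.pi_pos
  have hfin : Real.pi * (Y - L - 6 * X) ≤ Real.pi * (32 * X) := by
    rw [← hsum]; linarith
  have := le_of_mul_le_mul_left hfin hpi
  linarith


/-- Reflected version of the crossing lemma. -/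
theorem crossing' {D : ℂ → ℂ} (hD : DifferentiableOn ℂ D {z | 0 < z.re})
    (hre : ∀ z : ℂ, 0 < z.re → 0 ≤ (D z).re) (hne : ∀ z : ℂ, 0 < z.re → D z ≠ 0)
    {Z : ℕ → ℂ} {n m : ℕ} (hmn : m ≤ n) (hZ : ∀ k < n, Z (k + 1) = Z k + D (Z k))
    (hZ0 : 1 ≤ (Z 0).re)
    (hstep : ∀ k < n, ‖D (Z k)‖ ≤ 1 / 4) {X : ℝ} (hX : (Z n).re ≤ X) {L : ℝ}
    (h0 : -(Z 0).im ≤ L) (hn : -(Z n).im ≤ L) : -(Z m).im ≤ L + 38 * X := by
  set D' : ℂ → ℂ := fun z => conj (D (conj z)) with hD'
  have hmem : ∀ z : ℂ, 0 < z.re → 0 < (conj z).re := fun z hz => by simpa using hz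
  have hopen : IsOpen {z : ℂ | 0 < z.re} := isOpen_lt continuous_const Complex.continuous_re
  have hD'd : DifferentiableOn ℂ D' {z | 0 < z.re} := by
    intro z hz
    have h1 : DifferentiableAt ℂ D (conj z) := hD.differentiableAt (hopen.mem_nhds (hmem z hz))
    exact (differentiableAt_conj_conj_iff.2 h1).differentiableWithinAt
  have hre' : ∀ z : ℂ, 0 < z.re → 0 ≤ (D' z).re := by
    intro z hz; simp only [hD', conj_re]; exact hre _ (hmem z hz)
  have hne' : ∀ z : ℂ, 0 < z.re → D' z ≠ 0 := by
    intro z hz h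
    have h2 : D (conj z) = 0 := by
      have := congrArg conj h
      simpa [hD'] using this
    exact hne _ (hmem z hz) h2
  have := crossing hD'd hre' hne' (Z := fun k => conj (Z k)) (n := n) (m := m) hmn
    (fun k hk => by
      simp only [hD', Complex.conj_conj]
      rw [← map_add, ← hZ k hk])
    (by simpa using hZ0)
    (fun k hk => by
      simp only [hD', Complex.conj_conj, RCLike.norm_conj]
      exact hstep k hk)
    (X := X) (by simpa using hX) (L := L) (by simpa using h0) (by simpa using hn)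
  simpa using this

end Pool.Agent.MP26616c
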