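import Mathlib

/-!
Definitions: continuous semigroups of holomorphic self-maps of the unit disc, Denjoy-Wolff point,
the orbit in the right half-plane, and the harmonic measure of the two rays.
-/

set_option autoImplicit false

open MeasureTheory Filter Topology

namespace Pool.Agent.MP26616c

/-- `(phi_t)_{t >= 0}` is a continuous semigroup of holomorphic self-maps of the unit disc:
each `phi_t` is a holomorphic map of the disc into itself, `phi_0 = id`,
`phi_{t+s} = phi_t o phi_s`, and `t -> phi_t` is continuous on `[0, infinity)` for locally uniform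
convergence on the disc. (Only times `t >= 0` and points of the disc are used.) -/
structure IsContSemigroup (phi : ℝ → ℂ → ℂ) : Prop where
  mapsTo : ∀ t, 0 ≤ t → Set.MapsTo (phi t) (Metric.ball 0 1) (Metric.ball 0 1)
  holo : ∀ t, 0 ≤ t → DifferentiableOn ℂ (phi t) (Metric.ball 0 1)
  zero : ∀ z ∈ Metric.ball (0 : ℂ) 1, phi 0 z = z
  add : ∀ t s, 0 ≤ t → 0 ≤ s → ∀ z ∈ Metric.ball (0 : ℂ) 1, phi (t + s) z = phi t (phi s z)
  cont : ∀ t, 0 ≤ t → TendstoLocallyUniformlyOn phi (phi t) (𝓝[Set.Ici 0] t) (Metric.ball 0 1)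

/-- The semigroup has no fixed point in the disc. -/
def NonElliptic (phi : ℝ → ℂ → ℂ) : Prop :=
  ¬ ∃ z ∈ Metric.ball (0 : ℂ) 1, ∀ t, 0 ≤ t → phi t z = z

/-- `tau` is a point of the unit circle to which every orbit tends (the Denjoy-Wolff point). -/
def HasDWPoint (phi : ℝ → ℂ → ℂ) (tau : ℂ) : Prop :=
  ‖tau‖ = 1 ∧ ∀ z ∈ Metric.ball (0 : ℂ) 1, Tendsto (fun t => phi t z) atTop (𝓝 tau)

/-- The Cayley map `C z = (1 + z) / (1 - z)` of the unit disc onto the right half-plane. -/
noncomputable def cayley (z : ℂ) : ℂ := (1 + z) / (1 - z)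

/-- `z_t = C (phi_t (0))`, a point of the right half-plane. -/
noncomputable def orbitPt (phi : ℝ → ℂ → ℂ) (t : ℝ) : ℂ := cayley (phi t 0)

/-- Harmonic measure at `w` of the subset `{i y : y in E}` of the imaginary axis with respect to
the right half-plane, given by the Poisson integral. -/
noncomputable def harmMeas (E : Set ℝ) (w : ℂ) : ℝ :=
  (1 / Real.pi) * ∫ y in E, w.re / (w.re ^ 2 + (y - w.im) ^ 2)

/-- `h_t(w)`: harmonic measure at `w` of the two rays `{i y : |y| >= rho_t}`,
`rho_t = |z_t|`, with respect to the right half-plane. -/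
noncomputable def rayMeas (phi : ℝ → ℂ → ℂ) (t : ℝ) (w : ℂ) : ℝ :=
  harmMeas {y : ℝ | ‖orbitPt phi t‖ ≤ |y|} w

end Pool.Agent.MP26616c
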