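import Pool.Agent.Lib.MP_26616c_an.Semi

/-!
The lower bound for the harmonic measure of the rays.
-/

set_option autoImplicit false

open MeasureTheory Filter Topology Complex Set ComplexConjugate

namespace Pool.Agent.MP26616c

variable {phi : ℝ → ℂ → ℂ}

/-- The Poisson kernel of the half-plane is integrable. -/
lemma kernel_integrable {x : ℝ} (hx : 0 < x) (v : ℝ) :
    Integrable (fun y : ℝ => x / (x ^ 2 + (y - v) ^ 2)) := by
  have h1 : Integrable (fun y : ℝ => (1 + y ^ 2)⁻¹) := integrable_inv_one_add_sq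
  have h2 : Integrable (fun y : ℝ => (1 + (y / x) ^ 2)⁻¹) := h1.comp_div hx.ne'
  have h3 : Integrable (fun y : ℝ => (1 + ((y - v) / x) ^ 2)⁻¹) := h2.comp_sub_right v
  have h4 := h3.const_mul (1 / x)
  refine h4.congr (ae_of_all _ fun y => ?_)
  have : 0 < x ^ 2 + (y - v) ^ 2 := by positivity
  have e : 1 + ((y - v) / x) ^ 2 = (x ^ 2 + (y - v) ^ 2) / x ^ 2 := by
    field_simp
  simp only
  rw [e, inv_div]
  field_simp

/-- An interval of length `39 x` at distance at most `78 x` from `v`. -/
lemma kernel_setIntegral {x v a b : ℝ} (hx : 0 < x) (hab : b - a = 39 * x)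
    (h : ∀ y ∈ Icc a b, (y - v) ^ 2 ≤ (78 * x) ^ 2) {E : Set ℝ}
    (hsub : Icc a b ⊆ E) :
    39 / 6085 ≤ ∫ y in E, x / (x ^ 2 + (y - v) ^ 2) := by
  have hint := kernel_integrable hx v
  have h1 : ∫ y in Icc a b, x / (x ^ 2 + (y - v) ^ 2) ≤ ∫ y in E, x / (x ^ 2 + (y - v) ^ 2) := by
    refine setIntegral_mono_set hint.integrableOn ?_ ?_
    · exact ae_of_all _ fun y => by
        have : 0 ≤ x ^ 2 + (y - v) ^ 2 := by positivity
        exact div_nonneg hx.le this
    · exact ae_of_all _ hsub
  have h2 : ∫ _y in Icc a b, 1 / (6085 * x) ≤ ∫ y in Icc a b, x / (x ^ 2 + (y - v) ^ 2) := by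
    refine setIntegral_mono_on ?_ hint.integrableOn measurableSet_Icc ?_
    · exact continuousOn_const.integrableOn_Icc
    · intro y hy
      have h3 := h y hy
      have h4 : 0 < x ^ 2 + (y - v) ^ 2 := by positivity
      rw [div_le_div_iff₀ (by positivity) h4]
      nlinarith
  have h5 : ∫ _y in Icc a b, 1 / (6085 * x) = 39 / 6085 := by
    rw [setIntegral_const, Measure.real, Real.volume_Icc, hab,
      ENNReal.toReal_ofReal (by positivity), smul_eq_mul]
    field_simp
  linarith

/-- The harmonic measure, seen from the later point of the orbit, of the rays beyond the earlier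
point of the orbit, is bounded below by an absolute constant. -/
theorem ray_bound (h : IsContSemigroup phi) (hd : HasDWPoint phi 1) {t s : ℝ} (ht : 0 ≤ t)
    (hts : t ≤ s) : 1 / Real.pi * (39 / 6085) ≤ rayMeas phi t (orbitPt phi s) := by
  unfold rayMeas harmMeas
  refine mul_le_mul_of_nonneg_left ?_ (by positivity)
  have hx : 0 < (orbitPt phi s).re := orbitPt_re h (ht.trans hts)
  obtain ⟨c1, c2⟩ := orbit_crossing h hd ht hts
  have hre := orbit_re_mono h hd ht hts
  have hre0 : 0 < (orbitPt phi t).re := orbitPt_re h ht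
  have hnorm : ‖orbitPt phi t‖ ≤ |(orbitPt phi t).re| + |(orbitPt phi t).im| :=
    Complex.norm_le_abs_re_add_abs_im _
  set x := (orbitPt phi s).re with hxdef
  set v := (orbitPt phi s).im with hvdef
  rw [abs_of_pos hre0] at hnorm
  have hkey : ‖orbitPt phi t‖ ≤ |v| + 39 * x := by
    have m1 : max 0 v ≤ |v| := max_le (abs_nonneg v) (le_abs_self v)
    have m2 : max 0 (-v) ≤ |v| := max_le (abs_nonneg v) (neg_le_abs v)
    have : |(orbitPt phi t).im| ≤ |v| + 38 * x := abs_le.2 ⟨by linarith, by linarith⟩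
    linarith
  rcases le_total 0 v with hv | hv
  · rw [abs_of_nonneg hv] at hkey
    refine kernel_setIntegral (a := v + 39 * x) (b := v + 78 * x) hx (by ring) ?_ ?_
    · intro y hy
      refine pow_le_pow_left₀ (by linarith [hy.1]) (by linarith [hy.2]) 2
    · intro y hy
      exact (hkey.trans hy.1).trans (le_abs_self y)
  · rw [abs_of_nonpos hv] at hkey
    refine kernel_setIntegral (a := v - 78 * x) (b := v - 39 * x) hx (by ring) ?_ ?_
    · intro y hy
      rw [← neg_sq (y - v)]
      refine pow_le_pow_left₀ (by linarith [hy.2]) (by linarith [hy.1]) 2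
    · intro y hy
      refine le_trans (b := -y) ?_ (neg_le_abs y)
      linarith [hy.2]

end Pool.Agent.MP26616c
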