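import Pool.Agent.Lib.MP_26616c_an.Defs

/-!
Half-plane Schwarz-Pick and the monotonicity of the real part (Julia-Wolff at infinity).
-/

set_option autoImplicit false

open MeasureTheory Filter Topology Complex Set ComplexConjugate

namespace Pool.Agent.MP26616c

/-- Inverse of the Cayley map. -/
noncomputable def cinv (w : ℂ) : ℂ := (w - 1) / (w + 1)

lemma one_sub_ne {z : ℂ} (hz : z ∈ Metric.ball (0 : ℂ) 1) : 1 - z ≠ 0 := by
  intro h
  have : z = 1 := (sub_eq_zero.1 h).symm
  rw [this] at hz
  simp at hz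

lemma add_one_ne {w : ℂ} (hw : 0 < w.re) : w + 1 ≠ 0 := by
  intro h
  have := congrArg Complex.re h
  simp at this
  linarith

lemma cayley_re {z : ℂ} (hz : z ∈ Metric.ball (0 : ℂ) 1) : 0 < (cayley z).re := by
  have hne := one_sub_ne hz
  have h1 : (cayley z).re = (1 - Complex.normSq z) / Complex.normSq (1 - z) := by
    unfold cayley
    rw [Complex.div_re, ← add_div]
    congr 1
    rw [Complex.normSq_apply]
    simp
    ring
  rw [h1]
  have h2 : 0 < Complex.normSq (1 - z) := Complex.normSq_pos.2 hne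
  rw [mem_ball_zero_iff] at hz
  have h3 : Complex.normSq z < 1 := by
    rw [Complex.normSq_eq_norm_sq]
    have := norm_nonneg z
    nlinarith
  exact div_pos (by linarith) h2

lemma cinv_mem {w : ℂ} (hw : 0 < w.re) : cinv w ∈ Metric.ball (0 : ℂ) 1 := by
  have hne := add_one_ne hw
  rw [mem_ball_zero_iff, cinv, norm_div, div_lt_one (norm_pos_iff.2 hne)]
  refine lt_of_pow_lt_pow_left₀ 2 (norm_nonneg _) ?_
  rw [← Complex.normSq_eq_norm_sq, ← Complex.normSq_eq_norm_sq, Complex.normSq_apply,
    Complex.normSq_apply]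
  simp
  nlinarith

lemma cinv_cayley {z : ℂ} (hz : z ∈ Metric.ball (0 : ℂ) 1) : cinv (cayley z) = z := by
  have hne := one_sub_ne hz
  unfold cinv cayley
  have h1 : (1 + z) / (1 - z) - 1 = 2 * z / (1 - z) := by field_simp; ring
  have h2 : (1 + z) / (1 - z) + 1 = 2 / (1 - z) := by field_simp; ring
  rw [h1, h2]
  field_simp

lemma cayley_cinv {w : ℂ} (hw : 0 < w.re) : cayley (cinv w) = w := by
  have hne := add_one_ne hw
  unfold cinv cayley
  have h1 : 1 + (w - 1) / (w + 1) = 2 * w / (w + 1) := by field_simp; ring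
  have h2 : 1 - (w - 1) / (w + 1) = 2 / (w + 1) := by field_simp; ring
  rw [h1, h2]
  field_simp

/-- Half-plane Schwarz-Pick inequality. -/
theorem schwarz_pick {F : ℂ → ℂ} (hF : DifferentiableOn ℂ F {z | 0 < z.re})
    (hmap : ∀ z : ℂ, 0 < z.re → 0 < (F z).re) {w a : ℂ} (hw : 0 < w.re) (ha : 0 < a.re) :
    w.re * a.re * ‖F w + conj (F a)‖ ^ 2 ≤ (F w).re * (F a).re * ‖w + conj a‖ ^ 2 := by
  -- psi_b (z) = (z - b) / (z + conj b)
  have hden : ∀ b z : ℂ, 0 < b.re → 0 < z.re → z + conj b ≠ 0 := by
    intro b z hb hz h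
    have := congrArg Complex.re h
    simp at this
    linarith
  have hpsi : ∀ b z : ℂ, ‖z + conj b‖ ^ 2 - ‖z - b‖ ^ 2 = 4 * z.re * b.re := by
    intro b z
    rw [← Complex.normSq_eq_norm_sq, ← Complex.normSq_eq_norm_sq, Complex.normSq_apply,
      Complex.normSq_apply]
    simp
    ring
  -- inverse of psi_a
  set inv : ℂ → ℂ := fun x => (a + conj a * x) / (1 - x) with hinv
  have hinvre : ∀ x ∈ Metric.ball (0 : ℂ) 1, 0 < (inv x).re := by
    intro x hx
    have hne := one_sub_ne hx
    have h1 : (inv x).re = a.re * (1 - Complex.normSq x) / Complex.normSq (1 - x) := by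
      simp only [hinv]
      rw [Complex.div_re, ← add_div]
      congr 1
      rw [Complex.normSq_apply]
      simp
      ring
    rw [h1]
    have h2 : 0 < Complex.normSq (1 - x) := Complex.normSq_pos.2 hne
    rw [mem_ball_zero_iff] at hx
    have h3 : Complex.normSq x < 1 := by
      rw [Complex.normSq_eq_norm_sq]
      have := norm_nonneg x
      nlinarith
    exact div_pos (mul_pos ha (by linarith)) h2
  set b := F a with hb
  have hbre : 0 < b.re := hmap a ha
  set G : ℂ → ℂ := fun x => (F (inv x) - b) / (F (inv x) + conj b) with hG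
  have hinvd : DifferentiableOn ℂ inv (Metric.ball 0 1) := by
    refine DifferentiableOn.div (by fun_prop) (by fun_prop) fun x hx => one_sub_ne hx
  have hFd : DifferentiableOn ℂ (fun x => F (inv x)) (Metric.ball 0 1) :=
    hF.comp hinvd fun x hx => hinvre x hx
  have hGd : DifferentiableOn ℂ G (Metric.ball 0 1) := by
    refine (hFd.sub_const b).div (hFd.add_const _) fun x hx => ?_
    exact hden b _ hbre (hmap _ (hinvre x hx))
  have hGle : ∀ z : ℂ, 0 < z.re → ‖(z - b) / (z + conj b)‖ ≤ 1 := by
    intro z hz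
    have h1 := hpsi b z
    have h2 := norm_pos_iff.2 (hden b z hbre hz)
    rw [norm_div, div_le_one h2]
    refine le_of_sq_le_sq ?_ h2.le |>.trans le_rfl
    have : 0 < 4 * z.re * b.re := by positivity
    linarith
  have hGmaps : MapsTo G (Metric.ball 0 1) (Metric.closedBall 0 1) := by
    intro x hx
    rw [mem_closedBall_zero_iff]
    exact hGle _ (hmap _ (hinvre x hx))
  have hinv0 : inv 0 = a := by simp [hinv]
  have hG0 : G 0 = 0 := by simp only [hG, hinv0, ← hb, sub_self, zero_div]
  set x := (w - a) / (w + conj a) with hx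
  have hwa := hden a w ha hw
  have hxlt : ‖x‖ < 1 := by
    have h1 := hpsi a w
    have h2 := norm_pos_iff.2 hwa
    rw [hx, norm_div, div_lt_one h2]
    refine lt_of_pow_lt_pow_left₀ 2 h2.le ?_
    have : 0 < 4 * w.re * a.re := by positivity
    linarith
  have hinvx : inv x = w := by
    simp only [hinv]
    have haa : a + conj a ≠ 0 := by
      intro h
      have := congrArg Complex.re h
      simp at this
      linarith
    have h1 : a + conj a * x = w * (a + conj a) / (w + conj a) := by
      rw [hx]; field_simp; ring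
    have h2 : 1 - x = (a + conj a) / (w + conj a) := by
      rw [hx]; field_simp; ring
    rw [h1, h2]
    field_simp
  have hS := Complex.norm_le_norm_of_mapsTo_ball hGd hGmaps hG0 hxlt
  have hGx : G x = (F w - b) / (F w + conj b) := by simp only [hG, hinvx]
  rw [hGx, hx, norm_div, norm_div] at hS
  have hFw := hden b (F w) hbre (hmap w hw)
  have n1 := norm_pos_iff.2 hFw
  have n2 := norm_pos_iff.2 hwa
  rw [div_le_div_iff₀ n1 n2] at hS
  have hS2 : (‖F w - b‖ * ‖w + conj a‖) ^ 2 ≤ (‖w - a‖ * ‖F w + conj b‖) ^ 2 :=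
    pow_le_pow_left₀ (by positivity) hS 2
  have e1 := hpsi b (F w)
  have e2 := hpsi a w
  have e3 : ‖F w - b‖ ^ 2 = ‖F w + conj b‖ ^ 2 - 4 * (F w).re * b.re := by linarith
  have e4 : ‖w - a‖ ^ 2 = ‖w + conj a‖ ^ 2 - 4 * w.re * a.re := by linarith
  rw [mul_pow, mul_pow, e3, e4] at hS2
  nlinarith

end Pool.Agent.MP26616c
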