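import Pool.Agent.Lib.MP_26616c_an.Poisson

/-!
Upcrossing lemma for discrete orbits `Z (k+1) = Z k + D (Z k)` with `Re D ≥ 0`.
-/

set_option autoImplicit false

open MeasureTheory Filter Topology Complex Set

namespace Pool.Agent.MP26616c

/-- Running maximum. -/
noncomputable def runmax (y : ℕ → ℝ) : ℕ → ℝ
  | 0 => y 0
  | k + 1 => max (runmax y k) (y (k + 1))

lemma le_runmax (y : ℕ → ℝ) (k : ℕ) : y k ≤ runmax y k := by
  cases k with
  | zero => exact le_rfl
  | succ k => exact le_max_right _ _

lemma runmax_mono_step (y : ℕ → ℝ) (k : ℕ) : runmax y k ≤ runmax y (k + 1) := le_max_left _ _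

lemma runmax_mono (y : ℕ → ℝ) : Monotone (runmax y) := monotone_nat_of_le_succ (runmax_mono_step y)

lemma runmax_succ_cases (y : ℕ → ℝ) (k : ℕ) :
    runmax y (k + 1) = runmax y k ∨ (runmax y k < y (k + 1) ∧ runmax y (k + 1) = y (k + 1)) := by
  by_cases h : runmax y k < y (k + 1)
  · right; exact ⟨h, max_eq_right h.le⟩
  · left; exact max_eq_left (not_lt.1 h)

lemma kernel_sum (n : ℕ) (xi y : ℕ → ℝ) (hmono : ∀ k < n, xi k ≤ xi (k + 1)) (h0 : 1 / 2 ≤ xi 0)
    {X : ℝ} (hX : xi n ≤ X) (hstep : ∀ k < n, |y (k + 1) - y k| ≤ 1 / 4) {s : ℝ}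
    (hs0 : y 0 ≤ s) (hs1 : s + 3 * X ≤ runmax y n) :
    1 / 16 ≤ ∑ k ∈ Finset.range n, (runmax y (k + 1) - runmax y k) *
      (xi k / ((xi k) ^ 2 + (y k - s) ^ 2)) := by
  set M := runmax y with hM
  have hximono : ∀ i j, i ≤ j → j ≤ n → xi i ≤ xi j := by
    intro i j hij
    induction j, hij using Nat.le_induction with
    | base => intro _; exact le_rfl
    | succ j hj ih => intro hjn; exact (ih (by omega)).trans (hmono j (by omega))
  have hxihalf : ∀ k ≤ n, 1 / 2 ≤ xi k := fun k hk => h0.trans (hximono 0 k (Nat.zero_le _) hk)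
  have hXpos : 0 < X := lt_of_lt_of_le (by linarith [hxihalf n le_rfl]) hX
  -- last index with M k - s ≤ xi k
  classical
  set P : ℕ → Prop := fun k => M k - s ≤ xi k with hP
  set ks := Nat.findGreatest P n with hks
  have hP0 : P 0 := by
    show M 0 - s ≤ xi 0
    have : M 0 = y 0 := rfl
    rw [this]; linarith
  have hPks : P ks := Nat.findGreatest_spec (P := P) (Nat.zero_le n) hP0
  have hnPn : ¬ P n := by
    intro h
    have h' : M n - s ≤ xi n := h
    linarith
  have hksle : ks ≤ n := Nat.findGreatest_le n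
  have hksn : ks < n := by
    rcases lt_or_eq_of_le hksle with h | h
    · exact h
    · exact absurd (h ▸ hPks) hnPn
  have hafter : ∀ k, ks < k → k ≤ n → xi k < M k - s := by
    intro k h1 h2
    have := Nat.findGreatest_is_greatest (P := P) h1 h2
    exact not_le.1 this
  set r := xi ks with hr
  have hrhalf : 1 / 2 ≤ r := hxihalf ks hksle
  have hM1 : M (ks + 1) - s ≤ r + 1 / 4 := by
    rcases runmax_succ_cases y ks with h | ⟨_, h⟩
    · have : M (ks + 1) = M ks := h
      rw [this]
      have : M ks - s ≤ r := hPks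
      linarith
    · have e : M (ks + 1) = y (ks + 1) := h
      rw [e]
      have h1 := (abs_le.1 (hstep ks hksn)).2
      have h2 : y ks ≤ M ks := le_runmax y ks
      have h3 : M ks - s ≤ r := hPks
      linarith
  -- first index with M k - s > 2 r
  have hex : ∃ k, 2 * r < M k - s := by
    refine ⟨n, ?_⟩
    have : r ≤ X := (hximono ks n hksle le_rfl).trans hX
    linarith
  set k1 := Nat.find hex with hk1
  have hk1s : 2 * r < M k1 - s := Nat.find_spec hex
  have hk1n : k1 ≤ n := by
    refine Nat.find_min' hex ?_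
    have : r ≤ X := (hximono ks n hksle le_rfl).trans hX
    linarith
  have hk1gt : ks + 1 < k1 := by
    by_contra hcon
    push Not at hcon
    have : M k1 ≤ M (ks + 1) := runmax_mono y hcon
    linarith
  have hbefore : ∀ k, k < k1 → M k - s ≤ 2 * r := fun k hk => not_lt.1 (Nat.find_min hex hk)
  -- lower bound of the terms
  have hterm : ∀ k ∈ Finset.Ico (ks + 1) k1, (M (k + 1) - M k) * (1 / (8 * r)) ≤
      (M (k + 1) - M k) * (xi k / ((xi k) ^ 2 + (y k - s) ^ 2)) := by
    intro k hk
    rw [Finset.mem_Ico] at hk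
    rcases runmax_succ_cases y k with h | ⟨h, h'⟩
    · have : M (k + 1) - M k = 0 := sub_eq_zero.2 h
      rw [this]; simp
    · refine mul_le_mul_of_nonneg_left ?_ (sub_nonneg.2 (runmax_mono_step y k))
      have h1 := (abs_le.1 (hstep k (by omega))).2
      have h2 := hafter k (by omega) (by omega)
      have h3 := hbefore k hk.2
      have h4 : y k ≤ M k := le_runmax y k
      have h5 : r ≤ xi k := hximono ks k (by omega) (by omega)
      have h6 : M k < y (k + 1) := h
      have h7 : 0 < y k - s := by linarith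
      have h8 : y k - s ≤ 2 * r := by linarith
      have h9 : xi k ≤ 2 * r := by linarith
      rw [div_le_div_iff₀ (by positivity) (by positivity)]
      have h10 : (y k - s) ^ 2 ≤ (2 * r) ^ 2 := by
        apply pow_le_pow_left₀ h7.le h8
      have h11 : (xi k) ^ 2 ≤ (2 * r) ^ 2 := by
        apply pow_le_pow_left₀ (by linarith) h9
      nlinarith
  have hnonneg : ∀ k ∈ Finset.range n, 0 ≤ (M (k + 1) - M k) * (xi k / ((xi k) ^ 2 + (y k - s) ^ 2)) := by
    intro k hk
    rw [Finset.mem_range] at hk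
    have h1 : 0 ≤ M (k + 1) - M k := sub_nonneg.2 (runmax_mono_step y k)
    have h2 := hxihalf k hk.le
    positivity
  have htel : ∑ k ∈ Finset.Ico (ks + 1) k1, (M (k + 1) - M k) = M k1 - M (ks + 1) :=
    Finset.sum_Ico_sub M hk1gt.le
  calc (1 : ℝ) / 16 = (r / 2) * (1 / (8 * r)) := by field_simp; norm_num
    _ ≤ (M k1 - M (ks + 1)) * (1 / (8 * r)) := by
        refine mul_le_mul_of_nonneg_right ?_ (by positivity)
        linarith
    _ = ∑ k ∈ Finset.Ico (ks + 1) k1, (M (k + 1) - M k) * (1 / (8 * r)) := by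
        rw [← Finset.sum_mul, htel]
    _ ≤ ∑ k ∈ Finset.Ico (ks + 1) k1, (M (k + 1) - M k) * (xi k / ((xi k) ^ 2 + (y k - s) ^ 2)) :=
        Finset.sum_le_sum hterm
    _ ≤ ∑ k ∈ Finset.range n, (M (k + 1) - M k) * (xi k / ((xi k) ^ 2 + (y k - s) ^ 2)) := by
        refine Finset.sum_le_sum_of_subset_of_nonneg ?_ fun k hk _ => hnonneg k hk
        intro k hk
        rw [Finset.mem_Ico] at hk
        rw [Finset.mem_range]; omega

/-- `u = π/2 - arg D` along first passage steps: `(ΔM) u ≤ Δx`. -/
lemma increment_bound {d : ℂ} (hre : 0 ≤ d.re) {m : ℝ} (hm : m ≤ d.im) (hm0 : 0 < m) :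
    m * (Real.pi / 2 - Complex.arg d) ≤ d.re := by
  have him : 0 < d.im := lt_of_lt_of_le hm0 hm
  have hunn : 0 ≤ Real.pi / 2 - Complex.arg d := by
    have := (abs_le.1 (Complex.abs_arg_le_pi_div_two_iff.2 hre)).2
    linarith
  have hd0 : d ≠ 0 := by
    intro h; rw [h] at him; simp at him
  have hnorm : 0 < ‖d‖ := norm_pos_iff.2 hd0
  have hargpos : 0 < Complex.arg d := by
    have h1 : 0 ≤ Complex.arg d := Complex.arg_nonneg_iff.2 him.le
    rcases eq_or_lt_of_le h1 with h | h
    · exfalso
      have := (Complex.arg_eq_zero_iff.1 h.symm).2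
      linarith
    · exact h
  set u := Real.pi / 2 - Complex.arg d with hu
  have hsin : Real.sin u = d.re / ‖d‖ := by
    rw [hu, Real.sin_pi_div_two_sub, Complex.cos_arg hd0]
  have hcos : Real.cos u = d.im / ‖d‖ := by
    rw [hu, Real.cos_pi_div_two_sub, Complex.sin_arg]
  have hkey : u * Real.cos u ≤ Real.sin u := by
    rcases eq_or_lt_of_le hunn with h0 | h0
    · rw [← h0]; simp
    · have hlt : u < Real.pi / 2 := by rw [hu]; linarith
      have h1 := (Real.lt_tan h0 hlt).le
      have hc : 0 < Real.cos u := Real.cos_pos_of_mem_Ioo ⟨by linarith [Real.pi_pos], hlt⟩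
      rw [Real.tan_eq_sin_div_cos, le_div_iff₀ hc] at h1
      exact h1
  rw [hsin, hcos] at hkey
  have h2 : u * d.im ≤ d.re := by
    rw [← mul_div_assoc] at hkey
    exact (div_le_div_iff_of_pos_right hnorm).1 hkey
  calc m * u ≤ d.im * u := mul_le_mul_of_nonneg_right hm hunn
    _ = u * d.im := mul_comm _ _
    _ ≤ d.re := h2

/-- The upcrossing lemma. -/
theorem upcrossing {D : ℂ → ℂ} (hD : DifferentiableOn ℂ D {z | 0 < z.re})
    (hre : ∀ z : ℂ, 0 < z.re → 0 ≤ (D z).re) (hne : ∀ z : ℂ, 0 < z.re → D z ≠ 0)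
    {Z : ℕ → ℂ} {n : ℕ} (hZ : ∀ k < n, Z (k + 1) = Z k + D (Z k)) (hZ0 : 1 ≤ (Z 0).re)
    (hstep : ∀ k < n, ‖D (Z k)‖ ≤ 1 / 4) {X : ℝ} (hX : (Z n).re ≤ X) {A B : ℝ}
    (hA : (Z 0).im ≤ A) (hB : B + 3 * X ≤ (Z n).im) (hAB : A ≤ B) :
    ∫ s in A..B, (Real.pi / 2 - Complex.arg (D (((1 / 2 : ℝ) : ℂ) + s * I))) ≤ 16 * Real.pi * X := by
  -- real part is nondecreasing along the orbit
  have hre1 : ∀ k ≤ n, 1 ≤ (Z k).re := by
    intro k
    induction k with
    | zero => intro _; exact hZ0
    | succ k ih =>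
      intro hk
      have h1 := ih (by omega)
      rw [hZ k (by omega), add_re]
      have := hre (Z k) (by linarith)
      linarith
  set G : ℂ → ℂ := fun z => (Real.pi / 2 : ℝ) + I * Complex.log (D z) with hG
  have hGre : ∀ z, (G z).re = Real.pi / 2 - Complex.arg (D z) := by
    intro z
    simp [hG, Complex.log_im]
    ring
  have hslit : ∀ z : ℂ, 0 < z.re → D z ∈ slitPlane := by
    intro z hz
    rw [Complex.mem_slitPlane_iff]
    rcases eq_or_lt_of_le (hre z hz) with h | h
    · right
      intro him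
      exact hne z hz (Complex.ext h.symm him)
    · left; exact h
  have hGd : DifferentiableOn ℂ G {z | 0 < z.re} := by
    refine (differentiableOn_const _).add ((differentiableOn_const _).mul ?_)
    exact hD.clog fun z hz => hslit z hz
  have hGnn : ∀ z : ℂ, 0 < z.re → 0 ≤ (G z).re := by
    intro z hz
    rw [hGre]
    have := (abs_le.1 (Complex.abs_arg_le_pi_div_two_iff.2 (hre z hz))).2
    linarith
  set u0 : ℝ → ℝ := fun s => Real.pi / 2 - Complex.arg (D (((1 / 2 : ℝ) : ℂ) + s * I)) with hu0
  have hu0nn : ∀ s, 0 ≤ u0 s := by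
    intro s
    have := hGnn (((1 / 2 : ℝ) : ℂ) + s * I) (by simp)
    rw [hGre] at this
    exact this
  have hu0c : Continuous u0 := by
    have h1 : Continuous fun s : ℝ => G (((1 / 2 : ℝ) : ℂ) + s * I) :=
      hGd.continuousOn.comp_continuous (by fun_prop) fun s => by simp
    have h2 : u0 = fun s : ℝ => (G (((1 / 2 : ℝ) : ℂ) + s * I)).re := by
      funext s; rw [hGre]
    rw [h2]
    exact Complex.continuous_re.comp h1
  set y : ℕ → ℝ := fun k => (Z k).im with hy
  set xi : ℕ → ℝ := fun k => (Z k).re - 1 / 2 with hxi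
  set M := runmax y with hM
  -- Poisson
  have hPois : ∀ k < n, ∫ s in A..B, xi k / ((xi k) ^ 2 + (y k - s) ^ 2) * u0 s
      ≤ Real.pi * (Real.pi / 2 - Complex.arg (D (Z k))) := by
    intro k hk
    have h1 := poisson_lower hGd hGnn (x0 := 1 / 2) (by norm_num) (w := Z k)
      (by linarith [hre1 k hk.le]) hAB
    simp only [hGre] at h1
    exact h1
  -- increments
  have hinc : ∀ k < n, (M (k + 1) - M k) * (Real.pi / 2 - Complex.arg (D (Z k)))
      ≤ (Z (k + 1)).re - (Z k).re := by
    intro k hk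
    have hzk : 0 < (Z k).re := by linarith [hre1 k hk.le]
    have hdre := hre (Z k) hzk
    have e1 : (Z (k + 1)).re - (Z k).re = (D (Z k)).re := by rw [hZ k hk, add_re]; ring
    have e2 : y (k + 1) - y k = (D (Z k)).im := by simp only [hy]; rw [hZ k hk, add_im]; ring
    rw [e1]
    rcases runmax_succ_cases y k with h | ⟨h, h'⟩
    · have : M (k + 1) - M k = 0 := sub_eq_zero.2 h
      rw [this, zero_mul]; exact hdre
    · have h2 : y k ≤ M k := le_runmax y k
      have h3 : M (k + 1) = y (k + 1) := h'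
      have h4 : M k < y (k + 1) := h
      refine increment_bound hdre ?_ ?_
      · rw [← e2, h3]; linarith
      · rw [h3]; linarith
  have hsum : ∑ k ∈ Finset.range n, (M (k + 1) - M k) * (Real.pi / 2 - Complex.arg (D (Z k))) ≤ X := by
    calc ∑ k ∈ Finset.range n, (M (k + 1) - M k) * (Real.pi / 2 - Complex.arg (D (Z k)))
        ≤ ∑ k ∈ Finset.range n, ((Z (k + 1)).re - (Z k).re) :=
          Finset.sum_le_sum fun k hk => hinc k (Finset.mem_range.1 hk)
      _ = (Z n).re - (Z 0).re := Finset.sum_range_sub (fun k => (Z k).re) n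
      _ ≤ X := by linarith
  have hmono : ∀ k < n, xi k ≤ xi (k + 1) := by
    intro k hk
    simp only [hxi]
    have := hre (Z k) (by linarith [hre1 k hk.le])
    rw [hZ k hk, add_re]; linarith
  have hstep' : ∀ k < n, |y (k + 1) - y k| ≤ 1 / 4 := by
    intro k hk
    have e2 : y (k + 1) - y k = (D (Z k)).im := by simp only [hy]; rw [hZ k hk, add_im]; ring
    rw [e2]
    exact (Complex.abs_im_le_norm _).trans (hstep k hk)
  have hker : ∀ s ∈ Icc A B, 1 / 16 ≤ ∑ k ∈ Finset.range n, (M (k + 1) - M k) *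
      (xi k / ((xi k) ^ 2 + (y k - s) ^ 2)) := by
    intro s hs
    refine kernel_sum n xi y hmono (by simp only [hxi]; linarith) (X := X) ?_ hstep' ?_ ?_
    · simp only [hxi]; linarith
    · exact hA.trans hs.1
    · have h1 : (Z n).im ≤ M n := le_runmax y n
      linarith [hs.2]
  have hkc : ∀ k < n, Continuous fun s : ℝ => xi k / ((xi k) ^ 2 + (y k - s) ^ 2) * u0 s := by
    intro k hk
    have h1 : 0 < xi k := by simp only [hxi]; linarith [hre1 k hk.le]
    refine (Continuous.div (by fun_prop) (by fun_prop) fun s => ?_).mul hu0c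
    positivity
  have hmain : 1 / 16 * ∫ s in A..B, u0 s ≤ Real.pi * X := by
    calc 1 / 16 * ∫ s in A..B, u0 s = ∫ s in A..B, 1 / 16 * u0 s := by
          rw [intervalIntegral.integral_const_mul]
      _ ≤ ∫ s in A..B, ∑ k ∈ Finset.range n, (M (k + 1) - M k) *
            (xi k / ((xi k) ^ 2 + (y k - s) ^ 2) * u0 s) := by
          refine intervalIntegral.integral_mono_on hAB ?_ ?_ ?_
          · exact (continuous_const.mul hu0c).intervalIntegrable _ _
          · refine Continuous.intervalIntegrable ?_ _ _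
            refine continuous_finsetSum _ fun k hk => ?_
            exact continuous_const.mul (hkc k (Finset.mem_range.1 hk))
          · intro s hs
            have h1 := mul_le_mul_of_nonneg_right (hker s hs) (hu0nn s)
            rw [Finset.sum_mul] at h1
            refine h1.trans (le_of_eq ?_)
            exact Finset.sum_congr rfl fun k _ => by ring
      _ = ∑ k ∈ Finset.range n, (M (k + 1) - M k) *
            ∫ s in A..B, (xi k / ((xi k) ^ 2 + (y k - s) ^ 2) * u0 s) := by
          rw [intervalIntegral.integral_finsetSum]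
          · exact Finset.sum_congr rfl fun k _ => by rw [intervalIntegral.integral_const_mul]
          · intro k hk
            exact (continuous_const.mul (hkc k (Finset.mem_range.1 hk))).intervalIntegrable _ _
      _ ≤ ∑ k ∈ Finset.range n, (M (k + 1) - M k) *
            (Real.pi * (Real.pi / 2 - Complex.arg (D (Z k)))) := by
          refine Finset.sum_le_sum fun k hk => ?_
          exact mul_le_mul_of_nonneg_left (hPois k (Finset.mem_range.1 hk))
            (sub_nonneg.2 (runmax_mono_step y k))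
      _ = Real.pi * ∑ k ∈ Finset.range n, (M (k + 1) - M k) *
            (Real.pi / 2 - Complex.arg (D (Z k))) := by
          rw [Finset.mul_sum]
          exact Finset.sum_congr rfl fun k _ => by ring
      _ ≤ Real.pi * X := mul_le_mul_of_nonneg_left hsum Real.pi_pos.le
  linarith

end Pool.Agent.MP26616c
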