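import Mathlib

/-!
A lower Poisson bound in the half plane, obtained from the Poisson formula on large discs
and Fatou's lemma.
-/

set_option autoImplicit false

open MeasureTheory Filter Topology Complex Set

namespace Pool.Agent.MP26616c

lemma circleMap_eq (x0 R s : ℝ) :
    circleMap ((x0 + R : ℝ) : ℂ) R (Real.pi - s / R)
      = (x0 : ℂ) + R * (1 - Complex.exp (-(s / R : ℝ) * I)) := by
  rw [circleMap]
  have : Complex.exp (((Real.pi - s / R : ℝ) : ℂ) * I) = - Complex.exp (-(s / R : ℝ) * I) := by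
    push_cast
    rw [sub_mul, Complex.exp_sub, Complex.exp_pi_mul_I, neg_mul, Complex.exp_neg]
    ring
  rw [this]
  push_cast
  ring

lemma tendsto_mul_one_sub_exp (s : ℝ) :
    Tendsto (fun R : ℝ => (R : ℂ) * (1 - Complex.exp (-(s / R : ℝ) * I))) atTop (𝓝 (s * I)) := by
  have h1 : HasDerivAt (fun x : ℝ => 1 - Complex.exp (-((s * x : ℝ) : ℂ) * I)) (s * I) 0 := by
    have h2 : HasDerivAt (fun x : ℝ => (-((s * x : ℝ) : ℂ) * I)) (-(s : ℂ) * I) 0 := by
      have h3 : HasDerivAt (fun x : ℝ => ((s * x : ℝ) : ℂ)) (s : ℂ) 0 := by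
        have := ((hasDerivAt_id (0 : ℝ)).const_mul s).ofReal_comp
        simpa using this
      exact h3.neg.mul_const I
    have h4 := h2.cexp.const_sub 1
    simpa using h4
  have h5 := h1.tendsto_slope_zero_right
  have h6 : Tendsto (fun R : ℝ => R⁻¹) atTop (𝓝[>] 0) := tendsto_inv_atTop_nhdsGT_zero
  have h7 := h5.comp h6
  refine h7.congr' ?_
  filter_upwards [eventually_gt_atTop 0] with R hR
  simp only [Function.comp_apply, zero_add, inv_inv, mul_zero, ofReal_zero, neg_zero, zero_mul,
    Complex.exp_zero, sub_self, sub_zero]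
  rw [Complex.real_smul, div_eq_mul_inv]

theorem poisson_lower {G : ℂ → ℂ} (hG : DifferentiableOn ℂ G {z | 0 < z.re})
    (hnn : ∀ z : ℂ, 0 < z.re → 0 ≤ (G z).re) {x0 : ℝ} (hx0 : 0 < x0) {w : ℂ} (hw : x0 < w.re)
    {a b : ℝ} (hab : a ≤ b) :
    ∫ s in a..b, (w.re - x0) / ((w.re - x0) ^ 2 + (w.im - s) ^ 2) * (G (x0 + s * I)).re
      ≤ Real.pi * (G w).re := by
  have hGc : ContinuousOn G {z | 0 < z.re} := hG.continuousOn
  -- the kernels
  set zf : ℝ → ℝ → ℂ := fun R s => (x0 : ℂ) + R * (1 - Complex.exp (-(s / R : ℝ) * I)) with hzf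
  set g : ℝ → ℝ → ℝ := fun R s =>
    ((R ^ 2 - ‖w - ((x0 + R : ℝ) : ℂ)‖ ^ 2) / R) / ‖zf R s - w‖ ^ 2 * (G (zf R s)).re with hg
  have hnormw : ∀ R : ℝ, ‖w - ((x0 + R : ℝ) : ℂ)‖ ^ 2
      = ‖w - (x0 : ℂ)‖ ^ 2 - 2 * R * (w.re - x0) + R ^ 2 := by
    intro R
    rw [← Complex.normSq_eq_norm_sq, ← Complex.normSq_eq_norm_sq, Complex.normSq_apply,
      Complex.normSq_apply]
    simp only [sub_re, sub_im, ofReal_re, ofReal_im]
    ring
  have hbig : ∀ᶠ R : ℝ in atTop, 0 < R ∧ ‖w - (x0 : ℂ)‖ ^ 2 < 2 * R * (w.re - x0) ∧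
      |a| / R ≤ Real.pi ∧ |b| / R ≤ Real.pi := by
    have e1 : ∀ᶠ R : ℝ in atTop, ‖w - (x0 : ℂ)‖ ^ 2 < 2 * R * (w.re - x0) := by
      have : 0 < w.re - x0 := by linarith
      filter_upwards [eventually_gt_atTop (‖w - (x0 : ℂ)‖ ^ 2 / (2 * (w.re - x0)))] with R hR
      rw [div_lt_iff₀ (by positivity)] at hR
      linarith
    have e2 : ∀ v : ℝ, ∀ᶠ R : ℝ in atTop, |v| / R ≤ Real.pi := by
      intro v
      filter_upwards [eventually_ge_atTop (|v| / Real.pi), eventually_gt_atTop 0] with R hR hR0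
      rw [div_le_iff₀ Real.pi_pos] at hR
      rw [div_le_iff₀ hR0]
      linarith
    filter_upwards [eventually_gt_atTop 0, e1, e2 a, e2 b] with R h1 h2 h3 h4
    exact ⟨h1, h2, h3, h4⟩
  have hzre : ∀ R : ℝ, 0 < R → ∀ s : ℝ, x0 ≤ (zf R s).re := by
    intro R hR s
    simp only [hzf]
    have : (Complex.exp (-((s / R : ℝ) : ℂ) * I)).re ≤ 1 := by
      have h := Complex.re_le_norm (Complex.exp (-((s / R : ℝ) : ℂ) * I))
      rw [← ofReal_neg, Complex.norm_exp_ofReal_mul_I] at h
      rwa [← ofReal_neg]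
    simp only [add_re, ofReal_re, mul_re, sub_re, one_re, ofReal_im, zero_mul, sub_zero]
    nlinarith
  -- the inequality for each large R
  have hineq : ∀ᶠ R : ℝ in atTop, (Continuous (g R) ∧ (∀ s, 0 ≤ g R s)) ∧
      ∫ s in a..b, g R s ≤ 2 * Real.pi * (G w).re := by
    filter_upwards [hbig] with R ⟨hR, hR1, hR2, hR3⟩
    set c : ℂ := ((x0 + R : ℝ) : ℂ) with hc
    have hwb : w ∈ Metric.ball c R := by
      rw [mem_ball_iff_norm]
      have h1 := hnormw R
      have h2 : ‖w - c‖ ^ 2 < R ^ 2 := by rw [hc, h1]; linarith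
      exact lt_of_pow_lt_pow_left₀ 2 hR.le h2
    have hsub : Metric.closedBall c R ⊆ {z | 0 < z.re} := by
      intro z hz
      rw [mem_closedBall_iff_norm] at hz
      have h1 := Complex.abs_re_le_norm (z - c)
      have h2 : (z - c).re = z.re - (x0 + R) := by simp [hc]
      rw [h2] at h1
      have h3 := (abs_le.1 (h1.trans hz)).1
      simp only [mem_ofPred_eq]
      linarith
    have hdiff : DiffContOnCl ℂ G (Metric.ball c R) :=
      (hG.mono hsub).diffContOnCl_ball le_rfl
    have hP := hdiff.circleAverage_poissonKernel_smul' hwb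
    set F : ℝ → ℝ := fun θ => (R ^ 2 - ‖w - c‖ ^ 2) / ‖circleMap c R θ - w‖ ^ 2 *
      (G (circleMap c R θ)).re with hF
    have hcm : ∀ θ, circleMap c R θ ∈ Metric.closedBall c R := fun θ => circleMap_mem_closedBall c hR.le θ
    have hne : ∀ θ, circleMap c R θ - w ≠ 0 := by
      intro θ h0
      have h1 : circleMap c R θ = w := sub_eq_zero.1 h0
      have h2 : circleMap c R θ ∈ Metric.sphere c R := circleMap_mem_sphere c hR.le θ
      rw [h1, mem_sphere_iff_norm] at h2
      rw [mem_ball_iff_norm] at hwb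
      linarith
    have hFc : Continuous F := by
      have h1 : Continuous fun θ => G (circleMap c R θ) :=
        hGc.comp_continuous (continuous_circleMap c R) fun θ => hsub (hcm θ)
      have h2 : Continuous fun θ => ‖circleMap c R θ - w‖ ^ 2 := by fun_prop
      refine (continuous_const.div h2 fun θ => ?_).mul (Complex.continuous_re.comp h1)
      have := norm_pos_iff.2 (hne θ)
      positivity
    have hnum : 0 ≤ R ^ 2 - ‖w - c‖ ^ 2 := by
      rw [hc, hnormw R]; linarith
    have hFnn : ∀ θ, 0 ≤ F θ := fun θ =>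
      mul_nonneg (div_nonneg hnum (by positivity)) (hnn _ (hsub (hcm θ)))
    have hPr : (2 * Real.pi)⁻¹ * ∫ θ in (0 : ℝ)..2 * Real.pi, F θ = (G w).re := by
      rw [Real.circleAverage_def] at hP
      have h1 := congrArg Complex.re hP
      rw [← h1, Complex.smul_re, smul_eq_mul]
      congr 1
      have hGm : Continuous fun θ => G (circleMap c R θ) :=
        hGc.comp_continuous (continuous_circleMap c R) fun θ => hsub (hcm θ)
      set K : ℝ → ℝ := fun θ => (‖circleMap c R θ - c‖ ^ 2 - ‖w - c‖ ^ 2) /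
          ‖circleMap c R θ - c - (w - c)‖ ^ 2 with hK
      have hKc : Continuous K := by
        have hcc := continuous_circleMap c R
        refine Continuous.div (by fun_prop) (by fun_prop) fun θ => ?_
        have h5 : circleMap c R θ - c - (w - c) = circleMap c R θ - w := by ring
        rw [h5]
        have := norm_pos_iff.2 (hne θ)
        positivity
      have hint : IntervalIntegrable (fun θ => K θ • G (circleMap c R θ)) volume 0 (2 * Real.pi) :=
        (hKc.smul hGm).intervalIntegrable _ _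
      have h3 := Complex.reCLM.intervalIntegral_comp_comm hint
      simp only [Complex.reCLM_apply] at h3
      rw [← h3]
      refine intervalIntegral.integral_congr fun θ _ => ?_
      simp only [hF, hK, Complex.smul_re, smul_eq_mul]
      have h5 : circleMap c R θ - c - (w - c) = circleMap c R θ - w := by ring
      have h6 : ‖circleMap c R θ - c‖ = R := by
        have := circleMap_mem_sphere c hR.le θ
        rwa [mem_sphere_iff_norm] at this
      rw [h5, h6]
    have hgF : ∀ s, g R s = F (Real.pi - s / R) / R := by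
      intro s
      simp only [hg, hF, hzf]
      rw [hc, circleMap_eq x0 R s]
      ring
    refine ⟨⟨?_, ?_⟩, ?_⟩
    · have : g R = fun s => F (Real.pi - s / R) / R := funext hgF
      rw [this]
      exact (hFc.comp (by fun_prop)).div_const R
    · intro s; rw [hgF]; exact div_nonneg (hFnn _) hR.le
    · have e1 : ∫ s in a..b, g R s = ∫ θ in (Real.pi - b / R)..(Real.pi - a / R), F θ := by
        have h1 : ∫ s in a..b, g R s = (∫ s in a..b, F (Real.pi - s / R)) / R := by
          rw [← intervalIntegral.integral_div]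
          exact intervalIntegral.integral_congr fun s _ => hgF s
        rw [h1, intervalIntegral.integral_comp_sub_div F hR.ne' Real.pi, smul_eq_mul]
        field_simp
      have hb1 := abs_le.1 (le_refl |b|)
      have ha1 := abs_le.1 (le_refl |a|)
      have e2 : ∫ θ in (Real.pi - b / R)..(Real.pi - a / R), F θ ≤ ∫ θ in (0 : ℝ)..2 * Real.pi, F θ := by
        refine intervalIntegral.integral_mono_interval ?_ ?_ ?_ ?_ (hFc.intervalIntegrable _ _)
        · have : b / R ≤ |b| / R := by gcongr; exact le_abs_self b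
          linarith
        · have : a / R ≤ b / R := by gcongr
          linarith
        · have : -(a / R) ≤ |a| / R := by rw [← neg_div]; gcongr; exact neg_le_abs a
          linarith
        · exact Eventually.of_forall fun θ => hFnn θ
      rw [e1, ← hPr]
      have : 2 * Real.pi * ((2 * Real.pi)⁻¹ * ∫ θ in (0 : ℝ)..2 * Real.pi, F θ)
          = ∫ θ in (0 : ℝ)..2 * Real.pi, F θ := by
        have := Real.pi_pos
        field_simp
      rw [this]; exact e2
  -- pointwise limit
  have hlim : ∀ s, Tendsto (fun R => g R s) atTop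
      (𝓝 (2 * ((w.re - x0) / ((w.re - x0) ^ 2 + (w.im - s) ^ 2) * (G (x0 + s * I)).re))) := by
    intro s
    have hz : Tendsto (fun R => zf R s) atTop (𝓝 ((x0 : ℂ) + s * I)) :=
      (tendsto_mul_one_sub_exp s).const_add _
    have hmem : ((x0 : ℂ) + s * I) ∈ {z : ℂ | 0 < z.re} := by simpa using hx0
    have hopen : IsOpen {z : ℂ | 0 < z.re} := isOpen_lt continuous_const Complex.continuous_re
    have hGt : Tendsto (fun R => G (zf R s)) atTop (𝓝 (G ((x0 : ℂ) + s * I))) :=
      ((hGc.continuousAt (hopen.mem_nhds hmem)).tendsto).comp hz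
    have hGre := (Complex.continuous_re.tendsto _).comp hGt
    have hnum : Tendsto (fun R : ℝ => (R ^ 2 - ‖w - ((x0 + R : ℝ) : ℂ)‖ ^ 2) / R) atTop
        (𝓝 (2 * (w.re - x0))) := by
      have h1 : Tendsto (fun R : ℝ => 2 * (w.re - x0) - ‖w - (x0 : ℂ)‖ ^ 2 * R⁻¹) atTop
          (𝓝 (2 * (w.re - x0) - ‖w - (x0 : ℂ)‖ ^ 2 * 0)) :=
        (tendsto_const_nhds).sub (tendsto_inv_atTop_zero.const_mul _)
      rw [mul_zero, sub_zero] at h1
      refine h1.congr' ?_
      filter_upwards [eventually_gt_atTop 0] with R hR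
      rw [hnormw R]
      field_simp
      ring
    have hden : Tendsto (fun R => ‖zf R s - w‖ ^ 2) atTop (𝓝 (‖(x0 : ℂ) + s * I - w‖ ^ 2)) :=
      ((hz.sub_const w).norm).pow 2
    have hdval : ‖(x0 : ℂ) + s * I - w‖ ^ 2 = (w.re - x0) ^ 2 + (w.im - s) ^ 2 := by
      rw [← Complex.normSq_eq_norm_sq, Complex.normSq_apply]
      simp only [sub_re, add_re, ofReal_re, mul_re, I_re, mul_zero, ofReal_im, I_im, mul_one, sub_im,
        add_im, mul_im, add_zero, zero_add, sub_zero]
      ring
    have hpos : (w.re - x0) ^ 2 + (w.im - s) ^ 2 ≠ 0 := by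
      have : 0 < w.re - x0 := by linarith
      positivity
    rw [hdval] at hden
    have := (hnum.div hden hpos).mul hGre
    have e : 2 * ((w.re - x0) / ((w.re - x0) ^ 2 + (w.im - s) ^ 2) * (G (x0 + s * I)).re)
        = 2 * (w.re - x0) / ((w.re - x0) ^ 2 + (w.im - s) ^ 2) * (G (x0 + s * I)).re := by ring
    rw [e]
    exact this
  -- Fatou
  set g0 : ℝ → ℝ := fun s => 2 * ((w.re - x0) / ((w.re - x0) ^ 2 + (w.im - s) ^ 2) *
    (G (x0 + s * I)).re) with hg0
  obtain ⟨R0, hR0⟩ := eventually_atTop.1 hineq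
  set gn : ℕ → ℝ → ℝ := fun n => g (R0 + n) with hgn
  have hR0n : ∀ n : ℕ, R0 ≤ R0 + n := fun n => by
    have : (0 : ℝ) ≤ n := Nat.cast_nonneg n
    linarith
  have hgnlim : ∀ s, Tendsto (fun n => gn n s) atTop (𝓝 (g0 s)) := by
    intro s
    have : Tendsto (fun n : ℕ => R0 + (n : ℝ)) atTop atTop :=
      tendsto_atTop_add_const_left _ _ tendsto_natCast_atTop_atTop
    exact (hlim s).comp this
  have hg0nn : ∀ s, 0 ≤ g0 s := by
    intro s
    have h1 : 0 ≤ (G (x0 + s * I)).re := hnn _ (by simpa using hx0)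
    have h2 : 0 ≤ w.re - x0 := by linarith
    simp only [hg0]
    positivity
  have hg0c : Continuous g0 := by
    have h1 : Continuous fun s : ℝ => G ((x0 : ℂ) + s * I) :=
      hGc.comp_continuous (by fun_prop) fun s => by simpa using hx0
    have h2 : Continuous fun s : ℝ => (w.re - x0) / ((w.re - x0) ^ 2 + (w.im - s) ^ 2) := by
      refine Continuous.div (by fun_prop) (by fun_prop) fun s => ?_
      have : 0 < w.re - x0 := by linarith
      positivity
    exact continuous_const.mul (h2.mul (Complex.continuous_re.comp h1))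
  have hF := lintegral_liminf_le (μ := volume.restrict (Ioc a b)) (u := atTop)
    (f := fun n s => ENNReal.ofReal (gn n s))
    (fun n => ((hR0 _ (hR0n n)).1.1.measurable).ennreal_ofReal)
  have hL : ∀ s, liminf (fun n => ENNReal.ofReal (gn n s)) atTop = ENNReal.ofReal (g0 s) := fun s =>
    (ENNReal.tendsto_ofReal (hgnlim s)).liminf_eq
  simp only [hL] at hF
  have hI : ∀ n, ∫⁻ s in Ioc a b, ENNReal.ofReal (gn n s) ≤ ENNReal.ofReal (2 * Real.pi * (G w).re) := by
    intro n
    have h1 := (hR0 _ (hR0n n))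
    have h2 : ∫ s in Ioc a b, gn n s ≤ 2 * Real.pi * (G w).re := by
      rw [← intervalIntegral.integral_of_le hab]; exact h1.2
    rw [← ofReal_integral_eq_lintegral_ofReal]
    · exact ENNReal.ofReal_le_ofReal h2
    · exact (h1.1.1.integrableOn_Icc (a := a) (b := b)).mono_set Ioc_subset_Icc_self
    · exact Eventually.of_forall h1.1.2
  have hfin : ∫⁻ s in Ioc a b, ENNReal.ofReal (g0 s) ≤ ENNReal.ofReal (2 * Real.pi * (G w).re) := by
    refine hF.trans ?_
    refine (liminf_le_liminf (Eventually.of_forall hI)).trans ?_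
    simp
  rw [← ofReal_integral_eq_lintegral_ofReal] at hfin
  · have h0 : 0 ≤ 2 * Real.pi * (G w).re := by
      have := hnn w (hx0.trans hw)
      have := Real.pi_pos
      positivity
    rw [ENNReal.ofReal_le_ofReal_iff h0, ← intervalIntegral.integral_of_le hab] at hfin
    simp only [hg0] at hfin
    rw [intervalIntegral.integral_const_mul] at hfin
    linarith
  · exact (hg0c.integrableOn_Icc (a := a) (b := b)).mono_set Ioc_subset_Icc_self
  · exact Eventually.of_forall hg0nn

end Pool.Agent.MP26616c
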