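import Pool.Agent.Lib.MP_26616c_an.Julia
import Pool.Agent.Lib.MP_26616c_an.Cross

/-!
Semigroups in the half-plane: monotonicity of the real part, absence of fixed points, continuity
of orbits, and the continuous time crossing estimate.
-/

set_option autoImplicit false

open MeasureTheory Filter Topology Complex Set ComplexConjugate

namespace Pool.Agent.MP26616c

variable {phi : ℝ → ℂ → ℂ}

lemma zero_mem_ball : (0 : ℂ) ∈ Metric.ball (0 : ℂ) 1 := by simp

/-- Half-plane version of the semigroup. -/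
noncomputable def hp (phi : ℝ → ℂ → ℂ) (t : ℝ) (w : ℂ) : ℂ := cayley (phi t (cinv w))

lemma hp_re (h : IsContSemigroup phi) {t : ℝ} (ht : 0 ≤ t) {w : ℂ} (hw : 0 < w.re) :
    0 < (hp phi t w).re := cayley_re (h.mapsTo t ht (cinv_mem hw))

lemma hp_diff (h : IsContSemigroup phi) {t : ℝ} (ht : 0 ≤ t) :
    DifferentiableOn ℂ (hp phi t) {z | 0 < z.re} := by
  have h1 : DifferentiableOn ℂ cinv {z : ℂ | 0 < z.re} := by
    unfold cinv
    exact DifferentiableOn.div (by fun_prop) (by fun_prop) fun z hz => add_one_ne hz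
  have h2 : DifferentiableOn ℂ cayley (Metric.ball 0 1) := by
    unfold cayley
    exact DifferentiableOn.div (by fun_prop) (by fun_prop) fun z hz => one_sub_ne hz
  have h3 : DifferentiableOn ℂ (fun w => phi t (cinv w)) {z : ℂ | 0 < z.re} :=
    (h.holo t ht).comp h1 fun z hz => cinv_mem hz
  exact h2.comp h3 fun z hz => h.mapsTo t ht (cinv_mem hz)

lemma orbit_mem (h : IsContSemigroup phi) {t : ℝ} (ht : 0 ≤ t) :
    phi t 0 ∈ Metric.ball (0 : ℂ) 1 := h.mapsTo t ht zero_mem_ball

lemma orbitPt_re (h : IsContSemigroup phi) {t : ℝ} (ht : 0 ≤ t) : 0 < (orbitPt phi t).re :=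
  cayley_re (orbit_mem h ht)

lemma hp_orbit (h : IsContSemigroup phi) {t s : ℝ} (ht : 0 ≤ t) (hs : 0 ≤ s) :
    hp phi t (orbitPt phi s) = orbitPt phi (t + s) := by
  unfold hp orbitPt
  rw [cinv_cayley (orbit_mem h hs), h.add t s ht hs 0 zero_mem_ball]

lemma orbitPt_zero (h : IsContSemigroup phi) : orbitPt phi 0 = 1 := by
  unfold orbitPt cayley
  rw [h.zero 0 zero_mem_ball]; simp

/-- The modulus of the orbit tends to infinity. -/
lemma orbit_norm_tendsto (h : IsContSemigroup phi) (hd : HasDWPoint phi 1) :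
    Tendsto (fun t => ‖orbitPt phi t‖) atTop atTop := by
  have h1 : Tendsto (fun t => phi t 0) atTop (𝓝 1) := hd.2 0 zero_mem_ball
  have h2 : Tendsto (fun t => ‖1 - phi t 0‖) atTop (𝓝[>] 0) := by
    rw [tendsto_nhdsWithin_iff]
    constructor
    · have := (tendsto_const_nhds (x := (1 : ℂ))).sub h1
      have := this.norm
      simpa using this
    · filter_upwards [eventually_ge_atTop 0] with t ht
      exact norm_pos_iff.2 (one_sub_ne (orbit_mem h ht))
  have h3 : Tendsto (fun t => ‖1 - phi t 0‖⁻¹) atTop atTop := tendsto_inv_nhdsGT_zero.comp h2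
  have h4 : Tendsto (fun t => ‖1 + phi t 0‖) atTop (𝓝 2) := by
    have := (tendsto_const_nhds (x := (1 : ℂ))).add h1
    have := this.norm
    have e : ‖(1 : ℂ) + 1‖ = 2 := by norm_num
    rwa [e] at this
  have h5 := h4.pos_mul_atTop (by norm_num) h3
  refine h5.congr fun t => ?_
  simp only [orbitPt, cayley]
  rw [norm_div, div_eq_mul_inv]

/-- Ratio of shifted norms. -/
lemma ratio_tendsto {z : ℕ → ℂ} (hz : Tendsto (fun n => ‖z n‖) atTop atTop) (w : ℂ) :
    Tendsto (fun n => ‖w + conj (z n)‖ / ‖z n‖) atTop (𝓝 1) := by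
  have h1 : Tendsto (fun n => ‖w‖ / ‖z n‖) atTop (𝓝 0) := tendsto_const_nhds.div_atTop hz
  have hlow : ∀ᶠ n in atTop, 1 - ‖w‖ / ‖z n‖ ≤ ‖w + conj (z n)‖ / ‖z n‖ := by
    filter_upwards [hz.eventually_gt_atTop 0] with n hn
    rw [le_div_iff₀ hn, sub_mul, div_mul_cancel₀ _ hn.ne', one_mul]
    have h2 : ‖conj (z n)‖ = ‖z n‖ := RCLike.norm_conj _
    have h3 : ‖conj (z n)‖ ≤ ‖w + conj (z n)‖ + ‖w‖ := by
      calc ‖conj (z n)‖ = ‖(w + conj (z n)) - w‖ := by congr 1; ring
        _ ≤ _ := norm_sub_le _ _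
    linarith
  have hup : ∀ᶠ n in atTop, ‖w + conj (z n)‖ / ‖z n‖ ≤ 1 + ‖w‖ / ‖z n‖ := by
    filter_upwards [hz.eventually_gt_atTop 0] with n hn
    rw [div_le_iff₀ hn, add_mul, div_mul_cancel₀ _ hn.ne', one_mul]
    have h2 : ‖conj (z n)‖ = ‖z n‖ := RCLike.norm_conj _
    have h3 := norm_add_le w (conj (z n))
    linarith
  have l1 : Tendsto (fun n => 1 - ‖w‖ / ‖z n‖) atTop (𝓝 1) := by
    have := (tendsto_const_nhds (x := (1 : ℝ))).sub h1
    simpa using this
  have l2 : Tendsto (fun n => 1 + ‖w‖ / ‖z n‖) atTop (𝓝 1) := by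
    have := (tendsto_const_nhds (x := (1 : ℝ))).add h1
    simpa using this
  exact tendsto_of_tendsto_of_tendsto_of_le_of_le' l1 l2 hlow hup

/-- Julia-Wolff: the real part does not decrease. -/
theorem hp_re_mono (h : IsContSemigroup phi) (hd : HasDWPoint phi 1) {t : ℝ} (ht : 0 ≤ t)
    {w : ℂ} (hw : 0 < w.re) : w.re ≤ (hp phi t w).re := by
  rcases eq_or_lt_of_le ht with h0 | ht0
  · rw [← h0]
    unfold hp
    rw [h.zero _ (cinv_mem hw), cayley_cinv hw]
  by_contra hcon
  push Not at hcon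
  set W := hp phi t w with hW
  have hWre : 0 < W.re := hp_re h ht hw
  set z : ℕ → ℂ := fun n => orbitPt phi (n * t) with hz
  have hnt : ∀ n : ℕ, 0 ≤ (n : ℝ) * t := fun n => by positivity
  have hzre : ∀ n, 0 < (z n).re := fun n => orbitPt_re h (hnt n)
  have hznorm : ∀ n, 0 < ‖z n‖ := fun n => by
    have := (hzre n).trans_le (Complex.re_le_norm (z n)); exact this
  have hzs : ∀ n, hp phi t (z n) = z (n + 1) := by
    intro n
    simp only [hz]
    rw [hp_orbit h ht (hnt n)]
    congr 1; push_cast; ring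
  have hztop : Tendsto (fun n => ‖z n‖) atTop atTop := by
    have h1 : Tendsto (fun n : ℕ => (n : ℝ) * t) atTop atTop :=
      tendsto_natCast_atTop_atTop.atTop_mul_const ht0
    exact (orbit_norm_tendsto h hd).comp h1
  -- a n = |z n|^2 / Re z n
  set a : ℕ → ℝ := fun n => ‖z n‖ ^ 2 / (z n).re with ha
  have hapos : ∀ n, 0 < a n := fun n => div_pos (by have := hznorm n; positivity) (hzre n)
  have hage : ∀ n, ‖z n‖ ≤ a n := by
    intro n
    rw [ha, le_div_iff₀ (hzre n)]
    have := Complex.re_le_norm (z n)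
    have := hznorm n
    nlinarith
  have hatop : Tendsto a atTop atTop := tendsto_atTop_mono hage hztop
  set p : ℕ → ℝ := fun n => ‖w + conj (z n)‖ / ‖z n‖ with hp'
  set q : ℕ → ℝ := fun n => ‖W + conj (z (n + 1))‖ / ‖z (n + 1)‖ with hq'
  have hp1 : Tendsto p atTop (𝓝 1) := ratio_tendsto hztop w
  have hq1 : Tendsto q atTop (𝓝 1) :=
    (ratio_tendsto hztop W).comp (tendsto_add_atTop_nat 1)
  -- Schwarz-Pick
  have hSP : ∀ n, w.re * (q n) ^ 2 * a (n + 1) ≤ W.re * (p n) ^ 2 * a n := by
    intro n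
    have h1 := schwarz_pick (hp_diff h ht) (fun z hz => hp_re h ht hz) hw (hzre n)
    rw [hzs n] at h1
    have e1 : w.re * (q n) ^ 2 * a (n + 1) = (w.re * ‖W + conj (z (n + 1))‖ ^ 2) / (z (n + 1)).re := by
      simp only [hq', ha]
      have := (hznorm (n + 1)).ne'
      have := (hzre (n + 1)).ne'
      field_simp
    have e2 : W.re * (p n) ^ 2 * a n = (W.re * ‖w + conj (z n)‖ ^ 2) / (z n).re := by
      simp only [hp', ha]
      have := (hznorm n).ne'
      have := (hzre n).ne'
      field_simp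
    rw [e1, e2, div_le_div_iff₀ (hzre (n + 1)) (hzre n)]
    calc w.re * ‖W + conj (z (n + 1))‖ ^ 2 * (z n).re
        = w.re * (z n).re * ‖W + conj (z (n + 1))‖ ^ 2 := by ring
      _ ≤ W.re * (z (n + 1)).re * ‖w + conj (z n)‖ ^ 2 := h1
      _ = _ := by ring
  -- eventually W.re * p^2 ≤ w.re * q^2
  have hev : ∀ᶠ n in atTop, W.re * (p n) ^ 2 < w.re * (q n) ^ 2 := by
    have t1 : Tendsto (fun n => W.re * (p n) ^ 2) atTop (𝓝 (W.re * 1 ^ 2)) := (hp1.pow 2).const_mul _
    have t2 : Tendsto (fun n => w.re * (q n) ^ 2) atTop (𝓝 (w.re * 1 ^ 2)) := (hq1.pow 2).const_mul _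
    refine t1.eventually_lt t2 ?_
    simpa using hcon
  obtain ⟨N, hN⟩ := eventually_atTop.1 hev
  have hdec : ∀ n, N ≤ n → a (n + 1) ≤ a n := by
    intro n hn
    have h1 := hSP n
    have h2 := hN n hn
    have h3 := hapos n
    have h4 := hapos (n + 1)
    by_contra hc
    push Not at hc
    have h5 : 0 ≤ W.re * (p n) ^ 2 := by positivity
    nlinarith
  have hbd : ∀ n, N ≤ n → a n ≤ a N := by
    intro n hn
    induction n, hn using Nat.le_induction with
    | base => exact le_rfl
    | succ n hn ih => exact (hdec n hn).trans ih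
  obtain ⟨n, hn1, hn2⟩ := ((hatop.eventually_gt_atTop (a N)).and (eventually_ge_atTop N)).exists
  exact absurd (hbd n hn2) (not_le.2 hn1)

/-- No fixed points for positive times. -/
lemma hp_ne (h : IsContSemigroup phi) (hd : HasDWPoint phi 1) {t : ℝ} (ht : 0 < t)
    {w : ℂ} (hw : 0 < w.re) : hp phi t w ≠ w := by
  intro hfix
  set z := cinv w with hz
  have hzm : z ∈ Metric.ball (0 : ℂ) 1 := cinv_mem hw
  have hfz : phi t z = z := by
    have h1 : cinv (hp phi t w) = phi t z := cinv_cayley (h.mapsTo t ht.le hzm)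
    rw [← h1, hfix]
  have hn : ∀ n : ℕ, phi (n * t) z = z := by
    intro n
    induction n with
    | zero => simp [h.zero z hzm]
    | succ n ih =>
      have e : ((n + 1 : ℕ) : ℝ) * t = n * t + t := by push_cast; ring
      rw [e, h.add _ _ (by positivity) ht.le z hzm, hfz, ih]
  have h1 : Tendsto (fun n : ℕ => phi (n * t) z) atTop (𝓝 1) :=
    (hd.2 z hzm).comp (tendsto_natCast_atTop_atTop.atTop_mul_const ht)
  simp only [hn] at h1
  have h2 : z = 1 := tendsto_nhds_unique tendsto_const_nhds h1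
  rw [h2] at hzm
  simp at hzm

lemma orbit_continuousOn (h : IsContSemigroup phi) : ContinuousOn (orbitPt phi) (Ici 0) := by
  have h1 : ContinuousOn (fun t => phi t 0) (Ici 0) := by
    intro t ht
    exact (h.cont t ht).tendsto_at zero_mem_ball
  unfold orbitPt cayley
  refine ContinuousOn.div (continuousOn_const.add h1) (continuousOn_const.sub h1) fun t ht => ?_
  exact one_sub_ne (orbit_mem h ht)

lemma orbit_re_mono (h : IsContSemigroup phi) (hd : HasDWPoint phi 1) {t s : ℝ} (ht : 0 ≤ t)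
    (hts : t ≤ s) : (orbitPt phi t).re ≤ (orbitPt phi s).re := by
  have h1 := hp_re_mono h hd (t := s - t) (by linarith) (orbitPt_re h ht)
  rw [hp_orbit h (by linarith) ht] at h1
  have : s - t + t = s := by ring
  rwa [this] at h1

/-- Continuous time crossing estimate. -/
theorem orbit_crossing (h : IsContSemigroup phi) (hd : HasDWPoint phi 1) {t s : ℝ} (ht : 0 ≤ t)
    (hts : t ≤ s) :
    (orbitPt phi t).im ≤ max 0 (orbitPt phi s).im + 38 * (orbitPt phi s).re ∧
    -(orbitPt phi t).im ≤ max 0 (-(orbitPt phi s).im) + 38 * (orbitPt phi s).re := by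
  have hxs : 0 < (orbitPt phi s).re := orbitPt_re h (ht.trans hts)
  rcases eq_or_lt_of_le (ht.trans hts) with hs0 | hs0
  · have : t = s := le_antisymm hts (hs0 ▸ ht)
    rw [this]
    constructor
    · have := le_max_right 0 (orbitPt phi s).im
      linarith
    · have := le_max_right 0 (-(orbitPt phi s).im)
      linarith
  -- it suffices to prove it up to eta
  suffices H : ∀ η : ℝ, 0 < η → η ≤ 1 / 4 →
      (orbitPt phi t).im ≤ max 0 (orbitPt phi s).im + 38 * (orbitPt phi s).re + η ∧
      -(orbitPt phi t).im ≤ max 0 (-(orbitPt phi s).im) + 38 * (orbitPt phi s).re + η by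
    constructor
    · refine le_of_forall_pos_le_add fun η hη => ?_
      have h1 := (H (min η (1 / 4)) (lt_min hη (by norm_num)) (min_le_right _ _)).1
      have h2 := min_le_left η (1 / 4)
      linarith
    · refine le_of_forall_pos_le_add fun η hη => ?_
      have h1 := (H (min η (1 / 4)) (lt_min hη (by norm_num)) (min_le_right _ _)).2
      have h2 := min_le_left η (1 / 4)
      linarith
  intro η hη hη4
  have hcont : ContinuousOn (orbitPt phi) (Icc 0 s) :=
    (orbit_continuousOn h).mono Icc_subset_Ici_self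
  have huc : UniformContinuousOn (orbitPt phi) (Icc 0 s) :=
    isCompact_Icc.uniformContinuousOn_of_continuous hcont
  rw [Metric.uniformContinuousOn_iff] at huc
  obtain ⟨δ, hδ, hδ'⟩ := huc η hη
  obtain ⟨N, hN⟩ := exists_nat_gt (s / δ)
  have hNpos : (0 : ℝ) < N := lt_trans (by positivity) hN
  set ε := s / N with hε
  have hε0 : 0 < ε := by positivity
  have hεδ : ε < δ := by
    rw [hε, div_lt_iff₀ hNpos]
    rw [div_lt_iff₀ hδ] at hN
    linarith
  have hNε : (N : ℝ) * ε = s := by rw [hε]; field_simp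
  -- grid point below t
  set m := ⌊t / ε⌋₊ with hm
  have hm1 : (m : ℝ) * ε ≤ t := by
    have := Nat.floor_le (div_nonneg ht hε0.le)
    rw [le_div_iff₀ hε0] at this
    exact this
  have hm2 : t < (m : ℝ) * ε + ε := by
    have := Nat.lt_floor_add_one (t / ε)
    rw [div_lt_iff₀ hε0] at this
    linarith
  have hmN : m ≤ N := by
    have : (m : ℝ) * ε ≤ N * ε := by rw [hNε]; linarith
    have := le_of_mul_le_mul_right this hε0
    exact_mod_cast this
  set Z : ℕ → ℂ := fun k => orbitPt phi (k * ε) with hZ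
  set D : ℂ → ℂ := fun w => hp phi ε w - w with hD
  have hZstep : ∀ k < N, Z (k + 1) = Z k + D (Z k) := by
    intro k _
    simp only [hZ, hD]
    rw [hp_orbit h hε0.le (by positivity)]
    have : ((k + 1 : ℕ) : ℝ) * ε = ε + k * ε := by push_cast; ring
    rw [this]; ring
  have hkmem : ∀ k : ℕ, k ≤ N → (k : ℝ) * ε ∈ Icc 0 s := by
    intro k hk
    refine ⟨by positivity, ?_⟩
    rw [← hNε]
    have : (k : ℝ) ≤ N := by exact_mod_cast hk
    nlinarith
  have hstep : ∀ k < N, ‖D (Z k)‖ ≤ 1 / 4 := by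
    intro k hk
    have e : D (Z k) = Z (k + 1) - Z k := by rw [hZstep k hk]; ring
    rw [e, ← dist_eq_norm]
    have := hδ' _ (hkmem (k + 1) (by omega)) _ (hkmem k hk.le) (by
      rw [Real.dist_eq]
      have : ((k + 1 : ℕ) : ℝ) * ε - k * ε = ε := by push_cast; ring
      rw [this, abs_of_pos hε0]; exact hεδ)
    exact this.le.trans hη4
  have hDd : DifferentiableOn ℂ D {z | 0 < z.re} := (hp_diff h hε0.le).sub differentiableOn_id
  have hDre : ∀ z : ℂ, 0 < z.re → 0 ≤ (D z).re := by
    intro z hz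
    simp only [hD, sub_re]
    have := hp_re_mono h hd hε0.le hz
    linarith
  have hDne : ∀ z : ℂ, 0 < z.re → D z ≠ 0 := fun z hz h0 =>
    hp_ne h hd hε0 hz (sub_eq_zero.1 h0)
  have hZ0 : Z 0 = 1 := by simp only [hZ]; rw [Nat.cast_zero, zero_mul]; exact orbitPt_zero h
  have hZN : Z N = orbitPt phi s := by simp only [hZ]; rw [hNε]
  have hclose : dist (orbitPt phi t) (Z m) < η := by
    refine hδ' _ ⟨ht, hts⟩ _ (hkmem m hmN) ?_
    rw [Real.dist_eq, abs_lt]
    constructor <;> linarith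
  rw [dist_eq_norm] at hclose
  have him := (Complex.abs_im_le_norm (orbitPt phi t - Z m)).trans hclose.le
  rw [sub_im, abs_le] at him
  constructor
  · have := crossing hDd hDre hDne (Z := Z) (n := N) (m := m) hmN hZstep (by rw [hZ0]; simp)
      hstep (X := (orbitPt phi s).re) (by rw [hZN]) (L := max 0 (orbitPt phi s).im)
      (by rw [hZ0]; simp) (by rw [hZN]; exact le_max_right _ _)
    linarith [him.2]
  · have := crossing' hDd hDre hDne (Z := Z) (n := N) (m := m) hmN hZstep (by rw [hZ0]; simp)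
      hstep (X := (orbitPt phi s).re) (by rw [hZN]) (L := max 0 (-(orbitPt phi s).im))
      (by rw [hZ0]; simp) (by rw [hZN]; exact le_max_right _ _)
    linarith [him.1]

end Pool.Agent.MP26616c
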